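import Pool.Agent.H74R2.WT.Stmts

set_option autoImplicit false

open MeasureTheory Set

namespace H74R2.WT

noncomputable section

namespace G1aux

variable {K : Subfield ℝ}

lemma hs_shear (G : Set ℂ) (p y : ℝ) :
    hs ((fun z : ℂ => (⟨z.re + p * z.im, z.im⟩ : ℂ)) '' G) y = hs G y := by
  unfold hs
  have e : {x : ℝ | (⟨x, y⟩ : ℂ) ∈ (fun z : ℂ => (⟨z.re + p * z.im, z.im⟩ : ℂ)) '' G} =
      (fun x => x + -(p * y)) ⁻¹' {x : ℝ | (⟨x, y⟩ : ℂ) ∈ G} := by
    ext x
    constructor
    · rintro ⟨z, hz, h⟩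
      have h1 := congrArg Complex.re h
      have h2 := congrArg Complex.im h
      simp only at h1 h2
      show (⟨x + -(p * y), y⟩ : ℂ) ∈ G
      have : (⟨x + -(p * y), y⟩ : ℂ) = z := by
        apply Complex.ext
        · simp only; rw [← h1, ← h2]; ring
        · simp only; exact h2.symm
      rw [this]; exact hz
    · intro h
      refine ⟨⟨x + -(p * y), y⟩, h, ?_⟩
      apply Complex.ext
      · simp only; ring
      · rfl
  rw [e, measure_preimage_add_right]

lemma hs_tr (G : Set ℂ) (v : ℂ) (y : ℝ) :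
    hs ((fun z : ℂ => z + v) '' G) y = hs G (y - v.im) := by
  unfold hs
  have e : {x : ℝ | (⟨x, y⟩ : ℂ) ∈ (fun z : ℂ => z + v) '' G} =
      (fun x => x + -v.re) ⁻¹' {x : ℝ | (⟨x, y - v.im⟩ : ℂ) ∈ G} := by
    ext x
    constructor
    · rintro ⟨z, hz, h⟩
      have h1 := congrArg Complex.re h
      have h2 := congrArg Complex.im h
      simp only [Complex.add_re, Complex.add_im] at h1 h2
      show (⟨x + -v.re, y - v.im⟩ : ℂ) ∈ G
      have : (⟨x + -v.re, y - v.im⟩ : ℂ) = z := by
        apply Complex.ext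
        · simp only; linarith
        · simp only; linarith
      rw [this]; exact hz
    · intro h
      refine ⟨⟨x + -v.re, y - v.im⟩, h, ?_⟩
      apply Complex.ext
      · simp
      · simp
  rw [e, measure_preimage_add_right]

lemma hs_conj (G : Set ℂ) (y : ℝ) :
    hs ((fun z : ℂ => (starRingEnd ℂ) z) '' G) y = hs G (-y) := by
  unfold hs
  have e : {x : ℝ | (⟨x, y⟩ : ℂ) ∈ (fun z : ℂ => (starRingEnd ℂ) z) '' G} =
      {x : ℝ | (⟨x, -y⟩ : ℂ) ∈ G} := by
    ext x
    constructor
    · rintro ⟨z, hz, h⟩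
      have h1 := congrArg Complex.re h
      have h2 := congrArg Complex.im h
      simp only [Complex.conj_re, Complex.conj_im] at h1 h2
      show (⟨x, -y⟩ : ℂ) ∈ G
      have : (⟨x, -y⟩ : ℂ) = z := by
        apply Complex.ext
        · exact h1.symm
        · simp only; linarith
      rw [this]; exact hz
    · intro h
      refine ⟨⟨x, -y⟩, h, ?_⟩
      apply Complex.ext
      · simp
      · simp
  rw [e]

/-- translated piece -/
def sh (h : ℝ) (p : Piece K) : Piece K :=
  ⟨p.a + h, p.b + h, p.c - (p.k : ℝ) * h, p.k, by have := p.hab; linarith⟩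

/-- reflected piece -/
def rf (p : Piece K) : Piece K := ⟨-p.b, -p.a, p.c, -p.k, by have := p.hab; linarith⟩

lemma sh_f (h : ℝ) (p : Piece K) (s : ℝ) : (sh h p).f s = p.f (s - h) := by
  unfold Piece.f sh
  simp only
  by_cases h1 : p.a < s - h ∧ s - h < p.b
  · rw [if_pos h1, if_pos ⟨by linarith [h1.1], by linarith [h1.2]⟩]
    ring
  · rw [if_neg h1, if_neg]
    rintro ⟨h2, h3⟩
    exact h1 ⟨by linarith, by linarith⟩

lemma rf_f (p : Piece K) (s : ℝ) : (rf p).f s = p.f (-s) := by
  unfold Piece.f rf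
  simp only
  by_cases h1 : p.a < -s ∧ -s < p.b
  · rw [if_pos h1, if_pos ⟨by linarith [h1.2], by linarith [h1.1]⟩]
    push_cast
    ring
  · rw [if_neg h1, if_neg]
    rintro ⟨h2, h3⟩
    exact h1 ⟨by linarith, by linarith⟩

lemma sh_J {σ : K →+* ℝ} {φ : ℝ →+ ℝ} (hs : Semi σ φ) (h : ℝ) (p : Piece K) :
    (sh h p).J σ φ = p.J σ φ := by
  unfold Piece.J sh
  simp only
  rw [map_sub, hs, map_add, map_add]
  ring

lemma rf_J {σ : K →+* ℝ} {φ : ℝ →+ ℝ} (p : Piece K) : (rf p).J σ φ = p.J σ φ := by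
  unfold Piece.J rf
  simp only
  rw [map_neg, map_neg, map_neg]
  ring

end G1aux

open G1aux in
theorem t_G1 : T_G1 := by
  intro hrep hAr
  refine ⟨?_, ?_, ?_⟩
  · intro K σ φ hs G p hG
    obtain ⟨l, hl⟩ := hrep K G hG
    have hl' : RepOf K ((fun z : ℂ => (⟨z.re + p * z.im, z.im⟩ : ℂ)) '' G) l := by
      unfold RepOf
      filter_upwards [hl] with y hy
      rw [hs_shear, hy]
    rw [hAr K σ φ hs _ l hl', hAr K σ φ hs _ l hl]
  · intro K σ φ hs G v hG
    obtain ⟨l, hl⟩ := hrep K G hG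
    have hl' : RepOf K ((fun z : ℂ => z + v) '' G) (l.map (sh v.im)) := by
      unfold RepOf
      have h1 : ∀ᵐ y : ℝ, _root_.H74R2.WT.hs G (y - v.im) =
          (l.map (fun p => p.f (y - v.im))).sum :=
        (measurePreserving_sub_right volume v.im).quasiMeasurePreserving.ae hl
      filter_upwards [h1] with y hy
      rw [hs_tr, hy, List.map_map]
      congr 1
      refine List.map_congr_left fun p _ => ?_
      exact (sh_f v.im p y).symm
    rw [hAr K σ φ hs _ _ hl', hAr K σ φ hs _ l hl, List.map_map]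
    congr 1
    refine List.map_congr_left fun p _ => ?_
    exact sh_J hs v.im p
  · intro K σ φ hs G hG
    obtain ⟨l, hl⟩ := hrep K G hG
    have hl' : RepOf K ((fun z : ℂ => (starRingEnd ℂ) z) '' G) (l.map rf) := by
      unfold RepOf
      have h1 : ∀ᵐ y : ℝ, _root_.H74R2.WT.hs G (-y) = (l.map (fun p => p.f (-y))).sum :=
        (Measure.measurePreserving_neg volume).quasiMeasurePreserving.ae hl
      filter_upwards [h1] with y hy
      rw [hs_conj, hy, List.map_map]
      congr 1
      refine List.map_congr_left fun p _ => ?_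
      exact (rf_f p y).symm
    rw [hAr K σ φ hs _ _ hl', hAr K σ φ hs _ l hl, List.map_map]
    congr 1
    refine List.map_congr_left fun p _ => ?_
    exact rf_J p

end

end H74R2.WT
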